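import Pool.Agent.H66.NF.U
import Pool.Agent.H36.T1.DIVK

/-!
# PRN, row KPK: the points whose class is trivial are doubles
-/

set_option autoImplicit false

namespace Pool.NF

open Polynomial Pool.T1 Pool.T1.DIVK

namespace KPK

variable {L : Type} [Field L]

/-- Reduction of the square root modulo the cubic, then the halving formula. -/
theorem half' (a b c x : L)
    (l : L[X]) (hl : (X ^ 3 + C a * X ^ 2 + C b * X + C c : L[X]) ∣ (C x - X) - l ^ 2) :
    ∃ x' y' : L, y' ^ 2 = x' ^ 3 + a * x' ^ 2 + b * x' + c ∧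
      4 * y' ^ 2 * x = x' ^ 4 - 2 * b * x' ^ 2 - 8 * c * x' + b ^ 2 - 4 * a * c := by
  set f : L[X] := X ^ 3 + C a * X ^ 2 + C b * X + C c with hf
  have hf1 : (X ^ 3 + C a * X ^ 2 + C b * X + C c : L[X]) =
      C 1 * X ^ 3 + C a * X ^ 2 + C b * X + C c := by rw [C_1, one_mul]
  have hfd : f.natDegree = 3 := by
    rw [hf, hf1]
    exact natDegree_cubic one_ne_zero
  have hfm : f.Monic := by
    rw [Monic, leadingCoeff, hfd, hf, hf1]
    simp [coeff_X, coeff_C]
  set r : L[X] := l %ₘ f with hr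
  have hrd : r.natDegree < 3 := by
    have h3 := natDegree_modByMonic_lt l hfm (by
      intro h
      rw [h, natDegree_one] at hfd
      omega)
    rw [hfd] at h3
    exact h3
  have hre : r = C (r.coeff 0) + C (r.coeff 1) * X + C (r.coeff 2) * X ^ 2 := by
    conv_lhs => rw [r.as_sum_range' 3 hrd]
    simp [Finset.sum_range_succ, ← C_mul_X_pow_eq_monomial]
  have hsr : f ∣ (C x - X) - r ^ 2 := by
    have h3 : f ∣ l - r := by
      rw [hr]
      refine ⟨l /ₘ f, ?_⟩
      have := modByMonic_add_div l f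
      linear_combination -this
    have h4 : (C x - X) - r ^ 2 = ((C x - X) - l ^ 2) + (l - r) * (l + r) := by ring
    rw [h4]
    exact dvd_add hl (Dvd.dvd.mul_right h3 _)
  rw [hre] at hsr
  by_cases h3 : r.coeff 2 = 0
  · exfalso
    rw [h3, C_0, zero_mul, add_zero] at hsr
    have h4 : (C x - X : L[X]) - (C (r.coeff 0) + C (r.coeff 1) * X) ^ 2 =
        C (-(r.coeff 1) ^ 2) * X ^ 2 + C (-1 - 2 * r.coeff 0 * r.coeff 1) * X +
          C (x - (r.coeff 0) ^ 2) := by
      simp only [C_add, C_sub, C_mul, C_pow, map_ofNat, C_neg, C_1]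
      ring
    rw [h4] at hsr
    have h5 : C (-(r.coeff 1) ^ 2) * X ^ 2 + C (-1 - 2 * r.coeff 0 * r.coeff 1) * X +
          C (x - (r.coeff 0) ^ 2) = 0 := by
      refine eq_zero_of_dvd_of_natDegree_lt hsr ?_
      rw [hfd]
      exact lt_of_le_of_lt natDegree_quadratic_le (by norm_num)
    obtain ⟨h6, h7, -⟩ := quad0 _ _ _ h5
    have h8 : r.coeff 1 = 0 := by
      rw [neg_eq_zero] at h6
      exact pow_eq_zero_iff (two_ne_zero) |>.mp h6
    rw [h8, mul_zero, sub_zero] at h7
    exact neg_ne_zero.mpr one_ne_zero h7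
  · exact half a b c x _ _ _ h3 hsr

/-- Duplication. -/
theorem dup [DecidableEq L] (h2 : (2 : L) ≠ 0) (a b c : L) (x y x' y' : L)
    (h : (WC a b c).toAffine.Nonsingular x y)
    (hy' : y' ≠ 0) (he : y' ^ 2 = x' ^ 3 + a * x' ^ 2 + b * x' + c)
    (hx : 4 * y' ^ 2 * x = x' ^ 4 - 2 * b * x' ^ 2 - 8 * c * x' + b ^ 2 - 4 * a * c) :
    ∃ R : (WC a b c).toAffine.Point, WeierstrassCurve.Affine.Point.some x y h = R + R := by
  have hns : (WC a b c).toAffine.Nonsingular x' y' := by
    rw [WeierstrassCurve.Affine.nonsingular_iff']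
    refine ⟨(eqn_iff a b c x' y').2 he, Or.inr ?_⟩
    simp only [WC, zero_mul, add_zero]
    exact mul_ne_zero h2 hy'
  have hne : y' ≠ (WC a b c).toAffine.negY x' y' := by
    simp only [WeierstrassCurve.Affine.negY, WC, zero_mul, sub_zero]
    intro h3
    have h4 : 2 * y' = 0 := by linear_combination h3
    exact mul_ne_zero h2 hy' h4
  set R : (WC a b c).toAffine.Point := WeierstrassCurve.Affine.Point.some x' y' hns with hR
  have hRR : R + R = _ := WeierstrassCurve.Affine.Point.add_self_of_Y_ne (h₁ := hns) hne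
  -- the coordinate of the double
  have hX : (WC a b c).toAffine.addX x' x' ((WC a b c).toAffine.slope x' x' y' y') = x := by
    rw [WeierstrassCurve.Affine.slope_of_Y_ne rfl hne]
    simp only [WeierstrassCurve.Affine.addX, WeierstrassCurve.Affine.negY, WC, zero_mul, sub_zero,
      add_zero]
    have h3 : y' - -y' = 2 * y' := by ring
    rw [h3]
    have h4 : (2 * y') ≠ 0 := mul_ne_zero h2 hy'
    have h5 : (4 : L) ≠ 0 := by
      have : (4 : L) = 2 * 2 := by norm_num
      rw [this]; exact mul_ne_zero h2 h2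
    field_simp
    linear_combination -hx - 4 * (a + 2 * x') * he
  obtain ⟨X1, Y1, hn1, hE⟩ : ∃ (X1 Y1 : L) (hn1 : (WC a b c).toAffine.Nonsingular X1 Y1),
      R + R = WeierstrassCurve.Affine.Point.some X1 Y1 hn1 ∧ X1 = x := by
    exact ⟨_, _, _, hRR, hX⟩
  obtain ⟨hE, rfl⟩ := hE
  have h6 : Y1 ^ 2 = y ^ 2 := by
    rw [(eqn_iff a b c X1 Y1).1 hn1.1, (eqn_iff a b c X1 y).1 h.1]
  rcases sq_eq_sq_iff_eq_or_eq_neg.1 h6 with h7 | h7
  · subst h7
    exact ⟨R, hE.symm⟩
  · refine ⟨-R, ?_⟩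
    have h8 : -R + -R = -(R + R) := by abel
    rw [h8, hE, WeierstrassCurve.Affine.Point.neg_some, WeierstrassCurve.Affine.Point.some.injEq]
    refine ⟨rfl, ?_⟩
    simp only [WeierstrassCurve.Affine.negY, WC, zero_mul, sub_zero, h7, neg_neg]

end KPK

open KPK in
theorem kpk : KPKStmt := by
  intro L _ _ h2 a b c hirr P l hl
  cases P with
  | zero => exact ⟨0, (add_zero _).symm⟩
  | some x y h =>
    simp only [kp] at hl
    obtain ⟨x', y', he, hx⟩ := half' a b c x l hl
    have hy' : y' ≠ 0 := by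
      rintro rfl
      apply no_root a b c hirr x'
      rw [← he]; ring
    exact dup h2 a b c x y x' y' h hy' he hx

end Pool.NF

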